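import Pool.Agent.H43AW.Asm
import Pool.Agent.H43AW.Half
import Pool.Agent.H43AW.FinSum
import Pool.Agent.H43AW.LRR
import Pool.Agent.H43AW.Hull
import Pool.Agent.R456.CL.Sa456
import Pool.Agent.R456.CL.Cut456
import Pool.Agent.R456.CL.Sup
import Pool.Agent.R456.CL.AddO
import Pool.Agent.R456.CL.SB

/-!
# MP_3fc7b1_an, Q2: every AW*-algebra is a clean ring

`IsAWStar A` (Kaplansky's two conditions) is defined in `Pool.Agent.R456.CL.Defs`. There is no
hypothesis on the type, the center or countable decomposability.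
-/

set_option autoImplicit false

namespace Pool.Agent.Results.MP_3fc7b1_an.AllAWStarClean

open Pool.Agent.R456.CL Pool.Agent.H43AW

universe u

/-- Every AW*-algebra is clean: each element is the sum of a unit and an idempotent. -/
theorem result (A : Type u) [CStarAlgebra A] (hAW : IsAWStar A) (x : A) :
    ∃ (v : Aˣ) (e : A), e * e = e ∧ x = (v : A) + e := by
  have hsa : PSa A := sa456_ok A hAW
  have hcut : PCut A := cut456_ok A hsa
  have hsupO : PSupO A := Sup.supO_ok A hAW hcut
  have hsup : PSup A := Sup.sup_ok A hsupO hcut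
  have haddO : PAddO A := AddO.addO_ok A hsupO
  have hsb : PSB A := SB.sB_ok A hsup
  obtain ⟨P, _, _, hPP, _, _, y, _, _, h5, h6⟩ :=
    all_clean half_ok finsum_ok addR_ok lrR_ok hull_ok A hAW hsa hsupO hsup haddO hsb x
  exact ⟨⟨x - P, y, h6, h5⟩, P, hPP, by simp⟩

end Pool.Agent.Results.MP_3fc7b1_an.AllAWStarClean
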